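import Mathlib
import Pool.Agent.Lib.MP_9317e9_co.Defs

set_option autoImplicit false

universe u

namespace Pool.Agent.Lib.MP_9317e9_co.Peel

open Pool.Agent.Lib.MP_9317e9_co

/-- The set of those vertices of `Z` which are not in `S`, are not out-neighbours of elements of
`S`, are not in `T` and are not in-neighbours of elements of `T`. -/
def Rest {V : Type u} (G : Digraph V) (Z S T : Set V) : Set V :=
  {x | x ∈ Z ∧ x ∉ S ∧ (∀ s ∈ S, ¬ G.Adj s x) ∧ x ∉ T ∧ ∀ t ∈ T, ¬ G.Adj x t}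

/-- `FinKer G A`: every finite subset `F` of `A` contains an independent set `K` such that every
element of `F` outside `K` has an in-neighbour in `K`. This holds for example if `A` is
independent. -/
def FinKer {V : Type u} (G : Digraph V) (A : Set V) : Prop :=
  ∀ F ⊆ A, F.Finite → ∃ K ⊆ F, Indep G K ∧ ∀ v ∈ F, v ∈ K ∨ ∃ a ∈ K, G.Adj a v

/-- `FinSink G B`: every finite subset `F` of `B` contains an independent set `K` such that every
element of `F` outside `K` has an out-neighbour in `K`. -/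
def FinSink {V : Type u} (G : Digraph V) (B : Set V) : Prop :=
  ∀ F ⊆ B, F.Finite → ∃ K ⊆ F, Indep G K ∧ ∀ v ∈ F, v ∈ K ∨ ∃ b ∈ K, G.Adj v b

/-- `Pos G Z A S B T`: almost perfect position `(A, S, B, T)` in the set of vertices `Z`.
Here `A ⊆ S ⊆ Z`, `B ⊆ T ⊆ Z`, the sets `S` and `T` are disjoint, and, with
`R = Rest G Z S T`,
* every finite subset of `A` has a kernel, every finite subset of `B` has a sink
  (no condition if `A` and `B` are independent),
* every `a ∈ A` has only finitely many in-neighbours in `A ∪ R`,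
* every `s ∈ S \ A` has an in-neighbour `a ∈ A` which has no in-neighbour in `A ∪ R`,
* every `b ∈ B` has only finitely many out-neighbours in `B ∪ R`,
* every `t ∈ T \ B` has an out-neighbour `b ∈ B` which has no out-neighbour in `B ∪ R`. -/
structure Pos {V : Type u} (G : Digraph V) (Z A S B T : Set V) : Prop where
  subA : A ⊆ S
  subS : S ⊆ Z
  subB : B ⊆ T
  subT : T ⊆ Z
  disj : Disjoint S T
  kerA : FinKer G A
  finA : ∀ a ∈ A, {x | (x ∈ A ∨ x ∈ Rest G Z S T) ∧ G.Adj x a}.Finite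
  domA : ∀ s ∈ S, s ∉ A → ∃ a ∈ A, G.Adj a s ∧
    ∀ x, (x ∈ A ∨ x ∈ Rest G Z S T) → ¬ G.Adj x a
  kerB : FinSink G B
  finB : ∀ b ∈ B, {x | (x ∈ B ∨ x ∈ Rest G Z S T) ∧ G.Adj b x}.Finite
  domB : ∀ t ∈ T, t ∉ B → ∃ b ∈ B, G.Adj t b ∧
    ∀ x, (x ∈ B ∨ x ∈ Rest G Z S T) → ¬ G.Adj b x

end Pool.Agent.Lib.MP_9317e9_co.Peel
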