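import Mathlib
import Pool.Agent.Lib.MP_9317e9_co.P4.Pieces
import Pool.Agent.Lib.MP_9317e9_co.Peel.Defs

set_option autoImplicit false

universe u

namespace Pool.Agent.Lib.MP_9317e9_co.Peel

open Pool.Agent.Lib.MP_9317e9_co

variable {V : Type u}

/-- compactness: finite in-degrees and kernels of all finite subsets give a kernel -/
lemma exists_kernel_of_finKer {G : Digraph V} {S : Set V} (hS : FinKer G S)
    (hfin : ∀ v ∈ S, {u | u ∈ S ∧ G.Adj u v}.Finite) :
    ∃ A ⊆ S, Indep G A ∧ ∀ v ∈ S, v ∈ A ∨ ∃ a ∈ A, G.Adj a v := by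
  classical
  have hch : ∀ F : Finset V, ∃ A ⊆ (F : Set V) ∩ S, Indep G A ∧
      ∀ v ∈ (F : Set V) ∩ S, v ∈ A ∨ ∃ a ∈ A, G.Adj a v := fun F =>
    hS _ Set.inter_subset_right (F.finite_toSet.subset Set.inter_subset_left)
  choose K hK1 hK2 hK3 using hch
  set 𝒰 : Ultrafilter (Finset V) := Ultrafilter.of Filter.atTop with h𝒰
  have hle : (𝒰 : Filter (Finset V)) ≤ Filter.atTop := Ultrafilter.of_le _
  refine ⟨{v | ∀ᶠ F in (𝒰 : Filter (Finset V)), v ∈ K F}, ?_, ?_, ?_⟩
  · intro v hv
    obtain ⟨F, hF⟩ := hv.exists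
    exact (hK1 F hF).2
  · intro a ha b hb hab
    obtain ⟨F, hF1, hF2⟩ := (Filter.Eventually.and ha hb).exists
    exact hK2 F a hF1 b hF2 hab
  · intro v hv
    have hNf := hfin v hv
    have hev : ∀ᶠ F in (𝒰 : Filter (Finset V)), v ∈ K F ∨
        ∃ a ∈ {u | u ∈ S ∧ G.Adj u v}, a ∈ K F := by
      have h1 : ∀ᶠ F in (𝒰 : Filter (Finset V)), {v} ⊆ F := hle (Filter.mem_atTop _)
      filter_upwards [h1] with F hF
      have hvF : v ∈ F := hF (Finset.mem_singleton_self _)
      rcases hK3 F v ⟨hvF, hv⟩ with h | ⟨a, ha, h⟩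
      · exact Or.inl h
      · exact Or.inr ⟨a, ⟨(hK1 F ha).2, h⟩, ha⟩
    rw [Ultrafilter.eventually_or, Ultrafilter.eventually_exists_mem_iff hNf] at hev
    rcases hev with h | ⟨a, ha, h⟩
    · exact Or.inl h
    · exact Or.inr ⟨a, h, ha.2⟩

lemma finKer_mono {G : Digraph V} {A B : Set V} (hB : FinKer G B) (h : A ⊆ B) : FinKer G A :=
  fun F hF hf => hB F (hF.trans h) hf

lemma finKer_of_indep {G : Digraph V} {A : Set V} (hA : Indep G A) : FinKer G A :=
  fun F hF _ => ⟨F, subset_rfl, fun a ha b hb => hA a (hF ha) b (hF hb), fun _ hv => Or.inl hv⟩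

lemma finSink_of_indep {G : Digraph V} {A : Set V} (hA : Indep G A) : FinSink G A :=
  fun F hF _ => ⟨F, subset_rfl, fun a ha b hb => hA a (hF ha) b (hF hb), fun _ hv => Or.inl hv⟩

/-- A set with a rank function that is strictly increasing along backward arcs. -/
lemma finKer_of_rank {G : Digraph V} {ι : Type*} [Preorder ι] (ρ : V → ι) {S : Set V}
    (hS : ∀ x ∈ S, ∀ y ∈ S, G.Adj y x → ρ x < ρ y) : FinKer G S := by
  intro F hF hf
  apply exists_kernel_wf
  rintro ⟨f, hfF, hadj⟩
  have hmono : StrictMono (ρ ∘ f) := strictMono_nat_of_lt_succ fun n =>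
    hS _ (hF (hfF n)) _ (hF (hfF (n + 1))) (hadj n)
  have hinj : Function.Injective f := fun m n hmn => by
    by_contra hne
    rcases lt_or_gt_of_ne hne with h | h
    · have := hmono h
      simp only [Function.comp_apply, hmn, lt_self_iff_false] at this
    · have := hmono h
      simp only [Function.comp_apply, hmn, lt_self_iff_false] at this
  exact Set.infinite_range_of_injective hinj (hf.subset (by rintro _ ⟨n, rfl⟩; exact hfF n))

/-- Union of a family of sets with kernels of finite subsets such that all arcs between different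
sets go from later to earlier ones. -/
lemma finKer_iUnion {G : Digraph V} {ι : Type*} [LinearOrder ι] (A : ι → Set V)
    (hA : ∀ i, FinKer G (A i))
    (hdisj : ∀ i j, i < j → Disjoint (A i) (A j))
    (hup : ∀ i j, i < j → ∀ a ∈ A i, ∀ b ∈ A j, ¬ G.Adj a b) : FinKer G (⋃ i, A i) := by
  classical
  -- induction on the number of elements
  suffices H : ∀ (n : ℕ) (F : Set V), F ⊆ (⋃ i, A i) → F.Finite → F.ncard = n →
      ∃ K ⊆ F, Indep G K ∧ ∀ v ∈ F, v ∈ K ∨ ∃ a ∈ K, G.Adj a v from
    fun F hF hf => H _ F hF hf rfl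
  intro n
  induction n using Nat.strong_induction_on with
  | _ n ih =>
    intro F hF hf hn
    rcases F.eq_empty_or_nonempty with rfl | hne
    · exact ⟨∅, subset_rfl, by simp [Indep], by simp⟩
    -- the indices meeting F form a finite nonempty set; take the largest
    have hidx : ∀ v ∈ F, ∃ i, v ∈ A i := fun v hv => Set.mem_iUnion.1 (hF hv)
    have : Nonempty ι := ⟨(hidx _ hne.some_mem).choose⟩
    choose! idx hidx using hidx
    obtain ⟨v₀, hv₀, hmax⟩ := hf.exists_maximalFor idx F hne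
    set m := idx v₀ with hm
    have hle : ∀ v ∈ F, idx v ≤ m := fun v hv => by
      rcases le_total (idx v) m with h | h
      · exact h
      · exact hmax hv h
    have huniq : ∀ v i j, v ∈ A i → v ∈ A j → i = j := by
      intro v i j hi hj
      by_contra hne
      rcases lt_or_gt_of_ne hne with h | h
      · exact Set.disjoint_left.1 (hdisj i j h) hi hj
      · exact Set.disjoint_left.1 (hdisj j i h) hj hi
    obtain ⟨K₀, hK₀, hK₀i, hK₀d⟩ := hA m (F ∩ A m) Set.inter_subset_right
      (hf.subset Set.inter_subset_left)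
    set F' : Set V := {v | v ∈ F ∧ v ∉ A m ∧ ∀ a ∈ K₀, ¬ G.Adj a v} with hF'
    have hlt : F'.ncard < n := by
      rw [← hn]
      apply Set.ncard_lt_ncard _ hf
      refine ⟨fun v hv => hv.1, fun h => ?_⟩
      exact (h hv₀).2.1 (hidx v₀ hv₀)
    obtain ⟨K₁, hK₁, hK₁i, hK₁d⟩ := ih _ hlt F' (fun v hv => hF hv.1)
      (hf.subset fun v hv => hv.1) rfl
    refine ⟨K₀ ∪ K₁, ?_, ?_, ?_⟩
    · rintro v (h | h)
      · exact (hK₀ h).1
      · exact (hK₁ h).1
    · rintro a (ha | ha) b (hb | hb) hab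
      · exact hK₀i a ha b hb hab
      · exact (hK₁ hb).2.2 a ha hab
      · -- a in an earlier set, b in A m
        have h1 := hK₁ ha
        have h2 : idx a ≠ m := fun h => h1.2.1 (h ▸ hidx a h1.1)
        have h3 : idx a < m := lt_of_le_of_ne (hle a h1.1) h2
        exact hup _ _ h3 a (hidx a h1.1) b (hK₀ hb).2 hab
      · exact hK₁i a ha b hb hab
    · intro v hv
      by_cases h1 : v ∈ A m
      · rcases hK₀d v ⟨hv, h1⟩ with h | ⟨a, ha, h⟩
        · exact Or.inl (Or.inl h)
        · exact Or.inr ⟨a, Or.inl ha, h⟩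
      · by_cases h2 : ∃ a ∈ K₀, G.Adj a v
        · obtain ⟨a, ha, h⟩ := h2
          exact Or.inr ⟨a, Or.inl ha, h⟩
        · push Not at h2
          rcases hK₁d v ⟨hv, h1, h2⟩ with h | ⟨a, ha, h⟩
          · exact Or.inl (Or.inr h)
          · exact Or.inr ⟨a, Or.inr ha, h⟩

end Pool.Agent.Lib.MP_9317e9_co.Peel
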