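import Mathlib
import Pool.Agent.Lib.MP_9317e9_co.Peel.Kernel

set_option autoImplicit false

universe u

namespace Pool.Agent.Lib.MP_9317e9_co.Peel

open Pool.Agent.Lib.MP_9317e9_co Pool.Agent.Lib.MP_9317e9_co.P4

variable {V : Type u}

/-! ### reversal -/

lemma rest_rv {G : Digraph V} {Z S T : Set V} : Rest (rv G) Z T S = Rest G Z S T := by
  ext x
  constructor
  · rintro ⟨h1, h2, h3, h4, h5⟩
    exact ⟨h1, h4, h5, h2, h3⟩
  · rintro ⟨h1, h2, h3, h4, h5⟩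
    exact ⟨h1, h4, h5, h2, h3⟩

lemma indep_rv {G : Digraph V} {A : Set V} (h : Indep G A) : Indep (rv G) A :=
  fun a ha b hb hab => h b hb a ha hab

lemma finKer_rv {G : Digraph V} {A : Set V} (h : FinSink G A) : FinKer (rv G) A := by
  intro F hF hf
  obtain ⟨K, h1, h2, h3⟩ := h F hF hf
  exact ⟨K, h1, indep_rv h2, h3⟩

lemma finSink_rv {G : Digraph V} {A : Set V} (h : FinKer G A) : FinSink (rv G) A := by
  intro F hF hf
  obtain ⟨K, h1, h2, h3⟩ := h F hF hf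
  exact ⟨K, h1, indep_rv h2, h3⟩

lemma Pos.reverse {G : Digraph V} {Z A S B T : Set V} (h : Pos G Z A S B T) :
    Pos (rv G) Z B T A S where
  subA := h.subB
  subS := h.subT
  subB := h.subA
  subT := h.subS
  disj := h.disj.symm
  kerA := finKer_rv h.kerB
  finA := by rw [rest_rv]; exact h.finB
  domA := by rw [rest_rv]; exact h.domB
  kerB := finSink_rv h.kerA
  finB := by rw [rest_rv]; exact h.finA
  domB := by rw [rest_rv]; exact h.domA

lemma out1_rv {G : Digraph V} {S : Set V} : Out1 (rv G) S = In1 G S := rfl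

lemma in1_rv {G : Digraph V} {S : Set V} : In1 (rv G) S = Out1 G S := rfl

/-! ### towers of positions -/

/-- what is left at stage `i` -/
def Left {ι : Type*} [LT ι] (G : Digraph V) (U : Set V) (S T : ι → Set V) (i : ι) : Set V :=
  {v | v ∈ U ∧ ∀ j < i, v ∉ Out1 G (S j) ∧ v ∉ In1 G (T j)}

lemma left_rv {ι : Type*} [LT ι] {G : Digraph V} {U : Set V} {S T : ι → Set V} {i : ι} :
    Left (rv G) U T S i = Left G U S T i := by
  ext v
  constructor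
  · rintro ⟨h1, h2⟩
    exact ⟨h1, fun j hj => (h2 j hj).symm⟩
  · rintro ⟨h1, h2⟩
    exact ⟨h1, fun j hj => (h2 j hj).symm⟩

lemma left_sub_rest {ι : Type*} [LinearOrder ι] {G : Digraph V} {U : Set V} {S T : ι → Set V}
    {i j : ι} (hij : i < j) : Left G U S T j ⊆ Rest G (Left G U S T i) (S i) (T i) := by
  rintro v ⟨h1, h2⟩
  refine ⟨⟨h1, fun k hk => h2 k (hk.trans hij)⟩, fun h => (h2 i hij).1 (Or.inl h),
    fun s hs h => (h2 i hij).1 (Or.inr ⟨s, hs, h⟩), fun h => (h2 i hij).2 (Or.inl h),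
    fun s hs h => (h2 i hij).2 (Or.inr ⟨s, hs, h⟩)⟩

/-- the kernel side of a tower -/
lemma tower_half {G : Digraph V} {ι : Type*} [LinearOrder ι] {U : Set V}
    (A S B T : ι → Set V) (hP : ∀ i, Pos G (Left G U S T i) (A i) (S i) (B i) (T i)) :
    ∃ K ⊆ ⋃ i, A i, Indep G K ∧ ∀ i, ∀ s ∈ S i, s ∈ K ∨ ∃ a ∈ K, G.Adj a s := by
  have hAL : ∀ i, A i ⊆ Left G U S T i := fun i => (hP i).subA.trans (hP i).subS
  have hup : ∀ i j, i < j → ∀ a ∈ A i, ∀ b ∈ A j, ¬ G.Adj a b := by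
    intro i j hij a ha b hb hab
    exact ((hAL j hb).2 i hij).1 (Or.inr ⟨a, (hP i).subA ha, hab⟩)
  have hdisj : ∀ i j, i < j → Disjoint (A i) (A j) := by
    intro i j hij
    rw [Set.disjoint_left]
    intro a ha ha'
    exact ((hAL j ha').2 i hij).1 (Or.inl ((hP i).subA ha))
  have hin : ∀ i, ∀ a ∈ A i, ∀ x ∈ ⋃ i, A i, G.Adj x a →
      x ∈ A i ∨ x ∈ Rest G (Left G U S T i) (S i) (T i) := by
    intro i a ha x hx hxa
    obtain ⟨j, hj⟩ := Set.mem_iUnion.1 hx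
    rcases lt_trichotomy i j with h | h | h
    · exact Or.inr (left_sub_rest h (hAL j hj))
    · subst h; exact Or.inl hj
    · exact absurd hxa (hup j i h x hj a ha)
  obtain ⟨K, hK1, hK2, hK3⟩ := exists_kernel_of_finKer
    (finKer_iUnion A (fun i => (hP i).kerA) hdisj hup) (by
      intro a ha
      obtain ⟨i, hi⟩ := Set.mem_iUnion.1 ha
      exact ((hP i).finA a hi).subset fun x hx => ⟨hin i a hi x hx.1 hx.2, hx.2⟩)
  refine ⟨K, hK1, hK2, fun i s hs => ?_⟩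
  by_cases hsA : s ∈ A i
  · exact hK3 s (Set.mem_iUnion.2 ⟨i, hsA⟩)
  · obtain ⟨a, ha, has, hsol⟩ := (hP i).domA s hs hsA
    have haU : a ∈ ⋃ i, A i := Set.mem_iUnion.2 ⟨i, ha⟩
    rcases hK3 a haU with h | ⟨b, hb, hba⟩
    · exact Or.inr ⟨a, h, has⟩
    · exact absurd hba (hsol b (hin i a ha b (hK1 hb) hba))

/-- a tower of almost perfect positions that exhausts `U` gives a solution -/
theorem tower {G : Digraph V} {ι : Type*} [LinearOrder ι] {U : Set V}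
    (A S B T : ι → Set V) (hP : ∀ i, Pos G (Left G U S T i) (A i) (S i) (B i) (T i))
    (hcov : ∀ v ∈ U, ∃ i, v ∈ Out1 G (S i) ∨ v ∈ In1 G (T i)) :
    ∃ W0 W1 K L, W0 ∪ W1 = U ∧ Disjoint W0 W1 ∧ QK G W0 K ∧ QS G W1 L ∧
      W1 ⊆ ⋃ i, In1 G (T i) := by
  obtain ⟨K, hK1, hK2, hK3⟩ := tower_half A S B T hP
  obtain ⟨L, hL1, hL2, hL3⟩ := tower_half (G := rv G) (U := U) B T A S (fun i => by
    rw [left_rv]; exact (hP i).reverse)
  have hSU : ∀ i, ∀ s ∈ S i, s ∈ U := fun i s hs => ((hP i).subS hs).1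
  have hTU : ∀ i, ∀ s ∈ T i, s ∈ U := fun i s hs => ((hP i).subT hs).1
  have hST : ∀ i j, ∀ s ∈ S i, s ∉ T j := by
    intro i j s hs ht
    rcases lt_trichotomy i j with h | h | h
    · exact (((hP j).subT ht).2 i h).1 (Or.inl hs)
    · subst h; exact Set.disjoint_left.1 (hP i).disj hs ht
    · exact (((hP i).subS hs).2 j h).2 (Or.inl ht)
  set W0 : Set V := {v | v ∈ U ∧ (∀ j, v ∉ T j) ∧ ∃ i, v ∈ Out1 G (S i)} with hW0
  set W1 : Set V := {v | v ∈ U ∧ ((∃ j, v ∈ T j) ∨ ∀ i, v ∉ Out1 G (S i))} with hW1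
  have hSW : ∀ i, ∀ s ∈ S i, s ∈ W0 := fun i s hs =>
    ⟨hSU i s hs, fun j => hST i j s hs, i, Or.inl hs⟩
  have hTW : ∀ i, ∀ s ∈ T i, s ∈ W1 := fun i s hs => ⟨hTU i s hs, Or.inl ⟨i, hs⟩⟩
  have hW1T : ∀ v ∈ W1, ∃ i, v ∈ In1 G (T i) := by
    rintro v ⟨hv, ⟨j, hj⟩ | h⟩
    · exact ⟨j, Or.inl hj⟩
    · obtain ⟨i, hi | hi⟩ := hcov v hv
      · exact absurd hi (h i)
      · exact ⟨i, hi⟩
  refine ⟨W0, W1, K, L, ?_, ?_, ⟨?_, hK2, ?_⟩, ⟨?_, ?_, ?_⟩, ?_⟩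
  · ext v
    constructor
    · rintro (h | h)
      · exact h.1
      · exact h.1
    · intro hv
      by_cases h1 : ∃ j, v ∈ T j
      · exact Or.inr ⟨hv, Or.inl h1⟩
      · by_cases h2 : ∃ i, v ∈ Out1 G (S i)
        · push Not at h1
          exact Or.inl ⟨hv, h1, h2⟩
        · push Not at h2
          exact Or.inr ⟨hv, Or.inr h2⟩
  · rw [Set.disjoint_left]
    rintro v ⟨_, h1, i, h2⟩ ⟨_, ⟨j, hj⟩ | h⟩
    · exact h1 j hj
    · exact h i h2
  · intro v hv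
    obtain ⟨i, hi⟩ := Set.mem_iUnion.1 (hK1 hv)
    exact hSW i v ((hP i).subA hi)
  · rintro v ⟨hvU, -, i, hv | ⟨s, hs, hsv⟩⟩
    · rcases hK3 i v hv with h | ⟨a, ha, h⟩
      · exact Or.inl h
      · exact Or.inr ⟨a, ha, Or.inl h⟩
    · rcases hK3 i s hs with h | ⟨a, ha, h⟩
      · exact Or.inr ⟨s, h, Or.inl hsv⟩
      · exact Or.inr ⟨a, ha, Or.inr ⟨s, hSW i s hs, h, hsv⟩⟩
  · intro v hv
    obtain ⟨i, hi⟩ := Set.mem_iUnion.1 (hL1 hv)
    exact hTW i v ((hP i).subB hi)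
  · exact fun a ha b hb hab => hL2 b hb a ha hab
  · intro v hv
    obtain ⟨i, hi | ⟨t, ht, hvt⟩⟩ := hW1T v hv
    · rcases hL3 i v hi with h | ⟨a, ha, h⟩
      · exact Or.inl h
      · exact Or.inr ⟨a, ha, Or.inl h⟩
    · rcases hL3 i t ht with h | ⟨a, ha, h⟩
      · exact Or.inr ⟨t, h, Or.inl hvt⟩
      · exact Or.inr ⟨a, ha, Or.inr ⟨t, hTW i t ht, hvt, h⟩⟩
  · intro v hv
    obtain ⟨i, hi⟩ := hW1T v hv
    exact Set.mem_iUnion.2 ⟨i, hi⟩

lemma pos_empty (G : Digraph V) (Z : Set V) : Pos G Z ∅ ∅ ∅ ∅ where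
  subA := subset_rfl
  subS := Set.empty_subset _
  subB := subset_rfl
  subT := Set.empty_subset _
  disj := Set.disjoint_empty _
  kerA := finKer_of_indep (by simp [Indep])
  finA := by simp
  domA := by simp
  kerB := finSink_of_indep (by simp [Indep])
  finB := by simp
  domB := by simp

/-- transfinite iteration: choice of positions for all nonempty subsets of `U` gives a tower -/
theorem exists_tower {G : Digraph V} {U : Set V} (Q : Set V → Prop)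
    (hQ : Q ∅)
    (h : ∀ Z ⊆ U, Z.Nonempty → ∃ A S B T, Pos G Z A S B T ∧ (A ∪ B).Nonempty ∧ Q T) :
    ∃ W0 W1 K L, W0 ∪ W1 = U ∧ Disjoint W0 W1 ∧ QK G W0 K ∧ QS G W1 L ∧
      ((∀ T, Q T → T = ∅) → W1 = ∅) := by
  classical
  have h' : ∀ Z : Set V, ∃ A S B T, Pos G Z A S B T ∧
      (Z ⊆ U → Z.Nonempty → (A ∪ B).Nonempty) ∧ Q T := by
    intro Z
    by_cases hZ : Z ⊆ U ∧ Z.Nonempty
    · obtain ⟨A, S, B, T, h1, h2, h3⟩ := h Z hZ.1 hZ.2
      exact ⟨A, S, B, T, h1, fun _ _ => h2, h3⟩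
    · exact ⟨∅, ∅, ∅, ∅, pos_empty G Z, fun h1 h2 => absurd ⟨h1, h2⟩ hZ, hQ⟩
  choose fA fS fB fT hpos hne hQT using h'
  let D : Set V → Set V := fun Z => Out1 G (fS Z) ∪ In1 G (fT Z)
  have hwf : WellFounded (fun a b : Ordinal.{u} => a < b) := IsWellFounded.wf
  let cov : Ordinal.{u} → Set V := hwf.fix
    (fun ξ IH => {v | ∃ η, ∃ h : η < ξ, v ∈ D (U \ IH η h)})
  have hcov : ∀ ξ, cov ξ = {v | ∃ η, ∃ _ : η < ξ, v ∈ D (U \ cov η)} := by
    intro ξ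
    exact hwf.fix_eq (C := fun _ => Set V)
      (fun ξ IH => {v | ∃ η, ∃ h : η < ξ, v ∈ D (U \ IH η h)}) ξ
  have hleft : ∀ ξ, Left G U (fun η => fS (U \ cov η)) (fun η => fT (U \ cov η)) ξ =
      U \ cov ξ := by
    intro ξ
    ext v
    rw [hcov ξ]
    constructor
    · rintro ⟨h1, h2⟩
      refine ⟨h1, ?_⟩
      rintro ⟨η, hη, hv | hv⟩
      · exact (h2 η hη).1 hv
      · exact (h2 η hη).2 hv
    · rintro ⟨h1, h2⟩
      exact ⟨h1, fun η hη => ⟨fun h => h2 ⟨η, hη, Or.inl h⟩, fun h => h2 ⟨η, hη, Or.inr h⟩⟩⟩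
  -- termination
  obtain ⟨ξ₀, hξ₀⟩ : ∃ ξ, U ⊆ cov ξ := by
    by_contra hcon
    push Not at hcon
    have hne' : ∀ ξ, (U \ cov ξ).Nonempty := by
      intro ξ
      obtain ⟨v, h1, h2⟩ := Set.not_subset.1 (hcon ξ)
      exact ⟨v, h1, h2⟩
    have hp : ∀ ξ, ∃ v, v ∈ U \ cov ξ ∧ v ∈ D (U \ cov ξ) := by
      intro ξ
      obtain ⟨v, hv | hv⟩ := hne (U \ cov ξ) Set.sdiff_subset (hne' ξ)
      · exact ⟨v, (hpos _).subS ((hpos _).subA hv), Or.inl (Or.inl ((hpos _).subA hv))⟩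
      · exact ⟨v, (hpos _).subT ((hpos _).subB hv), Or.inr (Or.inl ((hpos _).subB hv))⟩
    choose p hp1 hp2 using hp
    have hlt : ∀ ξ η, ξ < η → p ξ ≠ p η := by
      intro ξ η hlt heq
      apply (hp1 η).2
      rw [← heq, hcov η]
      exact ⟨ξ, hlt, hp2 ξ⟩
    have hinj : Function.Injective p := by
      intro ξ η heq
      by_contra hne
      rcases lt_or_gt_of_ne hne with h | h
      · exact hlt ξ η h heq
      · exact hlt η ξ h heq.symm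
    exact not_injective_of_ordinal p hinj
  obtain ⟨W0, W1, K, L, h1, h2, h3, h4, h5⟩ := tower (G := G) (U := U)
    (fun η : Ordinal.{u} => fA (U \ cov η)) (fun η => fS (U \ cov η))
    (fun η => fB (U \ cov η)) (fun η => fT (U \ cov η))
    (fun ξ => by rw [hleft]; exact hpos _) (by
      intro v hv
      have := hξ₀ hv
      rw [hcov] at this
      obtain ⟨η, _, h | h⟩ := this
      · exact ⟨η, Or.inl h⟩
      · exact ⟨η, Or.inr h⟩)
  refine ⟨W0, W1, K, L, h1, h2, h3, h4, fun hT => ?_⟩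
  apply Set.eq_empty_of_subset_empty
  intro v hv
  obtain ⟨i, hi⟩ := Set.mem_iUnion.1 (h5 hv)
  rw [hT _ (hQT _)] at hi
  rcases hi with h | ⟨b, hb, _⟩
  · exact h
  · exact absurd hb (Set.notMem_empty _)

/-- positions in all nonempty subsets of `Y` give solutions for all subsets of `Y` -/
theorem solv_of_pos {G : Digraph V} {Y : Set V}
    (h : ∀ Z ⊆ Y, Z.Nonempty → ∃ A S B T, Pos G Z A S B T ∧ (A ∪ B).Nonempty) :
    ∀ U ⊆ Y, Solv G U := by
  intro U hU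
  obtain ⟨W0, W1, K, L, h1, h2, h3, h4, _⟩ := exists_tower (G := G) (U := U) (fun _ => True)
    trivial (fun Z hZ hne => by
      obtain ⟨A, S, B, T, h1, h2⟩ := h Z (hZ.trans hU) hne
      exact ⟨A, S, B, T, h1, h2, trivial⟩)
  exact ⟨W0, W1, K, L, h1, h2, h3, h4⟩

/-- one-sided positions in all nonempty subsets of `Y` give quasi-kernels for all subsets -/
theorem qk_of_pos {G : Digraph V} {Y : Set V}
    (h : ∀ Z ⊆ Y, Z.Nonempty → ∃ A S, Pos G Z A S ∅ ∅ ∧ A.Nonempty) :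
    ∀ U ⊆ Y, ∃ K, QK G U K := by
  intro U hU
  obtain ⟨W0, W1, K, L, h1, h2, h3, h4, h5⟩ := exists_tower (G := G) (U := U) (fun T => T = ∅)
    rfl (fun Z hZ hne => by
      obtain ⟨A, S, h1, h2⟩ := h Z (hZ.trans hU) hne
      exact ⟨A, S, ∅, ∅, h1, by simpa using h2, rfl⟩)
  have h6 : W1 = ∅ := h5 fun T hT => hT
  rw [h6, Set.union_empty] at h1
  exact ⟨K, h1 ▸ h3⟩

/-- a solution gives a position -/
theorem pos_of_solv {G : Digraph V} {Z : Set V} (hZ : Z.Nonempty) (h : Solv G Z) :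
    ∃ A S B T, Pos G Z A S B T ∧ (A ∪ B).Nonempty := by
  obtain ⟨W0, W1, A, B, hW, hd, ⟨a1, a2, a3⟩, ⟨b1, b2, b3⟩⟩ := h
  set S : Set V := {v | v ∈ W0 ∧ (v ∈ A ∨ ∃ a ∈ A, G.Adj a v)} with hS
  set T : Set V := {v | v ∈ W1 ∧ (v ∈ B ∨ ∃ b ∈ B, G.Adj v b)} with hT
  have hrest : ∀ x, x ∉ Rest G Z S T := by
    rintro x ⟨hx, h1, h2, h3, h4⟩
    rw [← hW] at hx
    rcases hx with hx | hx
    · rcases a3 x hx with h | ⟨a, ha, h | ⟨u, hu, hau, hux⟩⟩
      · exact h1 ⟨hx, Or.inl h⟩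
      · exact h2 a ⟨a1 ha, Or.inl ha⟩ h
      · exact h2 u ⟨hu, Or.inr ⟨a, ha, hau⟩⟩ hux
    · rcases b3 x hx with h | ⟨a, ha, h | ⟨u, hu, hxu, hua⟩⟩
      · exact h3 ⟨hx, Or.inl h⟩
      · exact h4 a ⟨b1 ha, Or.inl ha⟩ h
      · exact h4 u ⟨hu, Or.inr ⟨a, ha, hua⟩⟩ hxu
  refine ⟨A, S, B, T, ⟨fun a ha => ⟨a1 ha, Or.inl ha⟩, ?_, fun a ha => ⟨b1 ha, Or.inl ha⟩, ?_,
    ?_, finKer_of_indep a2, ?_, ?_, finSink_of_indep b2, ?_, ?_⟩, ?_⟩
  · intro v hv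
    rw [← hW]; exact Or.inl hv.1
  · intro v hv
    rw [← hW]; exact Or.inr hv.1
  · rw [Set.disjoint_left]
    intro v hv hv'
    exact Set.disjoint_left.1 hd hv.1 hv'.1
  · intro a ha
    convert Set.finite_empty (α := V)
    apply Set.eq_empty_of_subset_empty
    rintro x ⟨hx | hx, hxa⟩
    · exact a2 x hx a ha hxa
    · exact hrest x hx
  · rintro s ⟨hs, hs' | ⟨a, ha, has⟩⟩ hsA
    · exact absurd hs' hsA
    · refine ⟨a, ha, has, ?_⟩
      rintro x (hx | hx) hxa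
      · exact a2 x hx a ha hxa
      · exact hrest x hx
  · intro a ha
    convert Set.finite_empty (α := V)
    apply Set.eq_empty_of_subset_empty
    rintro x ⟨hx | hx, hxa⟩
    · exact b2 a ha x hx hxa
    · exact hrest x hx
  · rintro s ⟨hs, hs' | ⟨a, ha, has⟩⟩ hsA
    · exact absurd hs' hsA
    · refine ⟨a, ha, has, ?_⟩
      rintro x (hx | hx) hxa
      · exact b2 a ha x hx hxa
      · exact hrest x hx
  · obtain ⟨z, hz⟩ := hZ
    rw [← hW] at hz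
    rcases hz with hz | hz
    · rcases a3 z hz with h | ⟨a, ha, _⟩
      · exact ⟨z, Or.inl h⟩
      · exact ⟨a, Or.inl ha⟩
    · rcases b3 z hz with h | ⟨a, ha, _⟩
      · exact ⟨z, Or.inr h⟩
      · exact ⟨a, Or.inr ha⟩

end Pool.Agent.Lib.MP_9317e9_co.Peel
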