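import Mathlib
import Pool.Agent.Lib.MP_9317e9_co.Peel.Tower

set_option autoImplicit false

universe u

namespace Pool.Agent.Lib.MP_9317e9_co.Peel

open Pool.Agent.Lib.MP_9317e9_co Pool.Agent.Lib.MP_9317e9_co.P4

variable {V : Type u}

/-- greedy subset along a well-order -/
lemma exists_greedy_wo {G : Digraph V} (r : V → V → Prop) [IsWellOrder V r] (D : Set V) :
    ∃ S ⊆ D, (∀ v ∈ D, v ∈ Out1 G S) ∧ ∀ x ∈ S, ∀ y ∈ S, r x y → ¬ G.Adj x y := by
  classical
  have hwf : WellFounded r := IsWellFounded.wf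
  let P : V → Prop := hwf.fix (fun x IH => ∀ y, (h : r y x) → y ∈ D → IH y h → ¬ G.Adj y x)
  have hPx : ∀ x, P x ↔ ∀ y, r y x → y ∈ D → P y → ¬ G.Adj y x := by
    intro x
    have := hwf.fix_eq (C := fun _ => Prop) (fun x IH => ∀ y, (h : r y x) →
      y ∈ D → IH y h → ¬ G.Adj y x) x
    exact iff_of_eq this
  refine ⟨{x | x ∈ D ∧ P x}, fun x hx => hx.1, ?_, ?_⟩
  · intro v hv
    by_cases hPv : P v
    · exact Or.inl ⟨hv, hPv⟩
    · rw [hPx] at hPv
      push Not at hPv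
      obtain ⟨y, -, hyD, hPy, hyv⟩ := hPv
      exact Or.inr ⟨y, ⟨hyD, hPy⟩, hyv⟩
  · rintro x ⟨hxD, hPx'⟩ y ⟨hyD, hPy⟩ hxy
    exact (hPx y).1 hPy x hxy hxD hPx'

/-- no infinite backward walk inside a finite set whose arcs go up along backward steps -/
lemma finKer_of_rel {G : Digraph V} (hG : ∀ v, ¬ G.Adj v v) (r : V → V → Prop) [IsWellOrder V r]
    {S : Set V} (hup : ∀ x ∈ S, ∀ y ∈ S, r x y → ¬ G.Adj x y) : FinKer G S := by
  intro F hF hf
  apply exists_kernel_wf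
  rintro ⟨f, hfF, hadj⟩
  have hstep : ∀ n, r (f n) (f (n + 1)) := by
    intro n
    rcases trichotomous_of r (f n) (f (n + 1)) with h | h | h
    · exact h
    · have := hadj n
      rw [h] at this
      exact absurd this (hG _)
    · exact absurd (hadj n) (hup _ (hF (hfF _)) _ (hF (hfF _)) h)
  have hlt : ∀ m k, r (f m) (f (m + k + 1)) := by
    intro m k
    induction k with
    | zero => exact hstep m
    | succ k ih => exact IsTrans.trans _ _ _ ih (hstep (m + k + 1))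
  have hinj : Function.Injective f := by
    intro m n hmn
    by_contra hne
    rcases lt_or_gt_of_ne hne with h | h
    · obtain ⟨k, rfl⟩ := Nat.exists_eq_add_of_lt h
      exact (irrefl (r := r) (f m)) (by
        have := hlt m k
        rwa [← hmn] at this)
    · obtain ⟨k, rfl⟩ := Nat.exists_eq_add_of_lt h
      exact (irrefl (r := r) (f n)) (by
        have := hlt n k
        rwa [hmn] at this)
  exact Set.infinite_range_of_injective hinj (hf.subset (by rintro _ ⟨n, rfl⟩; exact hfF n))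

/-- partial kernels -/
structure PK (G : Digraph V) (S : Set V) where
  D : Set V
  K : Set V
  KD : K ⊆ D
  DS : D ⊆ S
  cl : ∀ v ∈ D, ∀ u ∈ S, G.Adj u v → u ∈ D
  ind : Indep G K
  dom : ∀ v ∈ D, v ∈ K ∨ ∃ a ∈ K, G.Adj a v

/-- extension of partial kernels -/
def PK.Le {G : Digraph V} {S : Set V} (p q : PK G S) : Prop := p.D ⊆ q.D ∧ q.K ∩ p.D = p.K

lemma PK.Le.trans {G : Digraph V} {S : Set V} {p q s : PK G S} (h1 : p.Le q) (h2 : q.Le s) :
    p.Le s := by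
  refine ⟨h1.1.trans h2.1, ?_⟩
  rw [← h1.2, ← h2.2]
  ext v
  constructor
  · rintro ⟨h, h'⟩; exact ⟨⟨h, h1.1 h'⟩, h'⟩
  · rintro ⟨⟨h, _⟩, h'⟩; exact ⟨h, h'⟩

lemma PK.Le.sub {G : Digraph V} {S : Set V} {p q : PK G S} (h : p.Le q) : p.K ⊆ q.K := by
  rw [← h.2]; exact Set.inter_subset_left

lemma PK.chain {G : Digraph V} {S : Set V} (c : Set (PK G S)) (hc : IsChain PK.Le c) :
    ∃ ub, ∀ a ∈ c, PK.Le a ub := by
  have htot : ∀ p ∈ c, ∀ q ∈ c, p.Le q ∨ q.Le p := by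
    intro p hp q hq
    by_cases h : p = q
    · subst h
      exact Or.inl ⟨subset_rfl, by
        rw [Set.inter_eq_left.2 p.KD]⟩
    · exact hc hp hq h
  refine ⟨⟨⋃ p ∈ c, p.D, ⋃ p ∈ c, p.K, ?_, ?_, ?_, ?_, ?_⟩, ?_⟩
  · exact Set.iUnion₂_mono fun p _ => p.KD
  · exact Set.iUnion₂_subset fun p _ => p.DS
  · intro v hv u hu huv
    obtain ⟨p, hp, hvp⟩ := Set.mem_iUnion₂.1 hv
    exact Set.mem_iUnion₂.2 ⟨p, hp, p.cl v hvp u hu huv⟩
  · intro a ha b hb hab
    obtain ⟨p, hp, hap⟩ := Set.mem_iUnion₂.1 ha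
    obtain ⟨q, hq, hbq⟩ := Set.mem_iUnion₂.1 hb
    rcases htot p hp q hq with h | h
    · exact q.ind a (h.sub hap) b hbq hab
    · exact p.ind a hap b (h.sub hbq) hab
  · intro v hv
    obtain ⟨p, hp, hvp⟩ := Set.mem_iUnion₂.1 hv
    rcases p.dom v hvp with h | ⟨a, ha, h⟩
    · exact Or.inl (Set.mem_iUnion₂.2 ⟨p, hp, h⟩)
    · exact Or.inr ⟨a, Set.mem_iUnion₂.2 ⟨p, hp, ha⟩, h⟩
  · intro p hp
    refine ⟨Set.subset_iUnion₂ (s := fun (p : PK G S) (_ : p ∈ c) => p.D) p hp, ?_⟩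
    ext v
    constructor
    · rintro ⟨h1, h2⟩
      obtain ⟨q, hq, hvq⟩ := Set.mem_iUnion₂.1 h1
      rcases htot p hp q hq with h | h
      · rw [← h.2]; exact ⟨hvq, h2⟩
      · exact h.sub hvq
    · intro h
      exact ⟨Set.mem_iUnion₂.2 ⟨p, hp, h⟩, p.KD h⟩

/-- kernels of greedy sets without backward walks with infinitely many vertices of infinite
in-degree -/
lemma exists_kernel_mixed {G : Digraph V} (hG : ∀ v, ¬ G.Adj v v) (r : V → V → Prop)
    [IsWellOrder V r] {S : Set V} (hup : ∀ x ∈ S, ∀ y ∈ S, r x y → ¬ G.Adj x y)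
    (hpath : ¬ ∃ f : ℕ → V, (∀ n, f n ∈ S) ∧ (∀ n, G.Adj (f (n + 1)) (f n)) ∧
      {n | {u | u ∈ S ∧ G.Adj u (f n)}.Infinite}.Infinite) :
    ∃ A ⊆ S, Indep G A ∧ ∀ v ∈ S, v ∈ A ∨ ∃ a ∈ A, G.Adj a v := by
  classical
  obtain ⟨m, hm⟩ := exists_maximal_of_chains_bounded (r := PK.Le (G := G) (S := S))
    (fun c hc => PK.chain c hc) (fun h1 h2 => h1.trans h2)
  set R : Set V := {v | v ∈ S ∧ {u | u ∈ S ∧ G.Adj u v}.Infinite} with hR
  by_cases hDS : S ⊆ m.D
  · refine ⟨m.K, m.KD.trans m.DS, m.ind, fun v hv => m.dom v (hDS hv)⟩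
  exfalso
  obtain ⟨x₀, hx₀S, hx₀D⟩ := Set.not_subset.1 hDS
  set X : Set V := S \ m.D with hX
  -- levels
  let T : ℕ → Set V := fun n => Nat.rec (X ∩ R)
    (fun _ D => {v | v ∈ X ∧ ∃ u ∈ D, G.Adj u v}) n
  have hT0 : T 0 = X ∩ R := rfl
  have hTs : ∀ n, T (n + 1) = {v | v ∈ X ∧ ∃ u ∈ T n, G.Adj u v} := fun n => rfl
  have hTX : ∀ n, T n ⊆ X := by
    intro n
    cases n with
    | zero => exact Set.inter_subset_left
    | succ n => rw [hTs]; exact fun v hv => hv.1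
  set E : Set V := {v | v ∈ X ∧ ∀ n, v ∉ T (n + 1)} with hE
  -- E is nonempty
  have hEne : E.Nonempty := by
    by_contra hno
    have hall : ∀ v ∈ X, ∃ n, v ∈ T (n + 1) := by
      intro v hv
      by_contra h
      push Not at h
      exact hno ⟨v, hv, h⟩
    let d : V → ℕ := fun v => if h : ∃ n, v ∈ T (n + 1) then Nat.find h else 0
    have hd : ∀ v ∈ X, v ∈ T (d v + 1) := by
      intro v hv
      have h := hall v hv
      simp only [d, dif_pos h]
      exact Nat.find_spec h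
    have hd' : ∀ v n, v ∈ T (n + 1) → d v ≤ n := by
      intro v n hv
      have h : ∃ n, v ∈ T (n + 1) := ⟨n, hv⟩
      simp only [d, dif_pos h]
      exact Nat.find_min' h hv
    have hnext : ∀ v : X, ∃ u : X, G.Adj u v ∧ ((u : V) ∈ R ∨ d u < d v) := by
      rintro ⟨v, hv⟩
      have h1 := hd v hv
      rw [hTs] at h1
      obtain ⟨_, u, hu, huv⟩ := h1
      refine ⟨⟨u, hTX _ hu⟩, huv, ?_⟩
      rcases Nat.eq_zero_or_pos (d v) with h0 | h0
      · rw [h0, hT0] at hu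
        exact Or.inl hu.2
      · obtain ⟨k, hk⟩ := Nat.exists_eq_succ_of_ne_zero h0.ne'
        rw [hk] at hu
        have := hd' u k hu
        right
        show d u < d v
        omega
    choose nx hnx1 hnx2 using hnext
    let f : ℕ → X := fun n => nx^[n] ⟨x₀, hx₀S, hx₀D⟩
    have hf : ∀ n, f (n + 1) = nx (f n) := fun n => by
      simp only [f, Function.iterate_succ_apply']
    apply hpath
    refine ⟨fun n => (f n : V), fun n => (f n).2.1, fun n => by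
      simp only [hf]; exact hnx1 (f n), ?_⟩
    intro hfin
    obtain ⟨N, hN⟩ := hfin.bddAbove
    have hnot : ∀ n, N < n → (f n : V) ∉ R := by
      intro n hn hr
      exact absurd (hN (show n ∈ {n | {u | u ∈ S ∧ G.Adj u (f n : V)}.Infinite} from hr.2))
        (not_le.2 hn)
    have hdec : ∀ k, d (f (N + 1 + k)) + k ≤ d (f (N + 1)) := by
      intro k
      induction k with
      | zero => simp
      | succ k ih =>
        have h1 := hnx2 (f (N + 1 + k))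
        rw [← hf] at h1
        have h2 : (f (N + 1 + k + 1) : V) ∉ R := hnot _ (by omega)
        have h3 := h1.resolve_left h2
        have h4 : N + 1 + (k + 1) = N + 1 + k + 1 := by omega
        rw [h4]
        omega
    have := hdec (d (f (N + 1)) + 1)
    omega
  -- E is closed under in-neighbours in X, and these are not in R
  have hEcl : ∀ v ∈ E, ∀ u ∈ X, G.Adj u v → u ∈ E ∧ u ∉ R := by
    rintro v ⟨hvX, hv⟩ u hu huv
    refine ⟨⟨hu, fun n hn => hv (n + 1) ?_⟩, fun hr => hv 0 ?_⟩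
    · rw [hTs (n + 1)]
      exact ⟨hvX, u, hn, huv⟩
    · rw [hTs 0]
      exact ⟨hvX, u, ⟨hu, hr⟩, huv⟩
  have hEX : E ⊆ X := fun v hv => hv.1
  set F : Set V := {v | v ∈ E ∧ ∀ a ∈ m.K, ¬ G.Adj a v} with hF
  have hFS : F ⊆ S := fun v hv => (hEX hv.1).1
  obtain ⟨L₁, hL₁F, hL₁i, hL₁d⟩ := exists_kernel_of_finKer (G := G) (S := F \ R)
    (finKer_of_rel hG r fun x hx y hy => hup x (hFS hx.1) y (hFS hy.1)) (by
      rintro v ⟨hvF, hvR⟩
      have h1 : ¬ {u | u ∈ S ∧ G.Adj u v}.Infinite := fun h => hvR ⟨hFS hvF, h⟩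
      rw [Set.not_infinite] at h1
      exact h1.subset fun u hu => ⟨hFS hu.1.1, hu.2⟩)
  set L₂ : Set V := {v | v ∈ F ∧ v ∈ R ∧ ∀ a ∈ L₁, ¬ G.Adj a v} with hL₂
  set L : Set V := L₁ ∪ L₂ with hL
  have hLF : L ⊆ F := by
    rintro v (h | h)
    · exact (hL₁F h).1
    · exact h.1
  have hLi : Indep G L := by
    rintro a (ha | ha) b (hb | hb) hab
    · exact hL₁i a ha b hb hab
    · exact hb.2.2 a ha hab
    · exact (hEcl b (hL₁F hb).1.1 a (hEX ha.1.1) hab).2 ha.2.1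
    · exact (hEcl b hb.1.1 a (hEX ha.1.1) hab).2 ha.2.1
  have hLd : ∀ v ∈ F, v ∈ L ∨ ∃ a ∈ L, G.Adj a v := by
    intro v hv
    by_cases hvR : v ∈ R
    · by_cases h : ∃ a ∈ L₁, G.Adj a v
      · obtain ⟨a, ha, h⟩ := h
        exact Or.inr ⟨a, Or.inl ha, h⟩
      · push Not at h
        exact Or.inl (Or.inr ⟨hv, hvR, h⟩)
    · rcases hL₁d v ⟨hv, hvR⟩ with h | ⟨a, ha, h⟩
      · exact Or.inl (Or.inl h)
      · exact Or.inr ⟨a, Or.inl ha, h⟩
  let q : PK G S :=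
    { D := m.D ∪ E
      K := m.K ∪ L
      KD := Set.union_subset_union m.KD fun v hv => (hLF hv).1
      DS := Set.union_subset m.DS fun v hv => (hEX hv).1
      cl := by
        rintro v (hv | hv) u hu huv
        · exact Or.inl (m.cl v hv u hu huv)
        · by_cases h : u ∈ m.D
          · exact Or.inl h
          · exact Or.inr (hEcl v hv u ⟨hu, h⟩ huv).1
      ind := by
        rintro a (ha | ha) b (hb | hb) hab
        · exact m.ind a ha b hb hab
        · exact (hLF hb).2 a ha hab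
        · exact (hEX (hLF ha).1).2 (m.cl b (m.KD hb) a (hEX (hLF ha).1).1 hab)
        · exact hLi a ha b hb hab
      dom := by
        rintro v (hv | hv)
        · rcases m.dom v hv with h | ⟨a, ha, h⟩
          · exact Or.inl (Or.inl h)
          · exact Or.inr ⟨a, Or.inl ha, h⟩
        · by_cases h : ∃ a ∈ m.K, G.Adj a v
          · obtain ⟨a, ha, h⟩ := h
            exact Or.inr ⟨a, Or.inl ha, h⟩
          · push Not at h
            rcases hLd v ⟨hv, h⟩ with h | ⟨a, ha, h⟩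
            · exact Or.inl (Or.inr h)
            · exact Or.inr ⟨a, Or.inr ha, h⟩ }
  have hmq : m.Le q := by
    refine ⟨Set.subset_union_left, ?_⟩
    ext v
    constructor
    · rintro ⟨h | h, h'⟩
      · exact h
      · exact absurd h' (hEX (hLF h).1).2
    · intro h
      exact ⟨Or.inl h, m.KD h⟩
  obtain ⟨v, hv⟩ := hEne
  exact (hEX hv).2 ((hm q hmq).1 (Or.inr hv))

/-- absorb a part in which every subset is dominated by a set all whose subsets have kernels -/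
lemma absorb_kernelPerfect {G : Digraph V} {K Y : Set V}
    (hK : ∀ U ⊆ K, ∃ S ⊆ U, (∀ v ∈ U, v ∈ Out1 G S) ∧
      ∀ S' ⊆ S, ∃ L ⊆ S', Indep G L ∧ ∀ v ∈ S', v ∈ L ∨ ∃ a ∈ L, G.Adj a v)
    (hY : ∀ U ⊆ Y, Solv G U) : ∀ U ⊆ K ∪ Y, Solv G U := by
  intro U hU
  obtain ⟨S, hSD, hdom, hker⟩ := hK (U ∩ K) Set.inter_subset_right
  have hSU : S ⊆ U := hSD.trans Set.inter_subset_left
  have hSK : S ⊆ K := hSD.trans Set.inter_subset_right
  obtain ⟨W0, W1, A, B, hW, hd, ⟨a1, a2, a3⟩, hQS⟩ := hY (U \ Out1 G S) (by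
    rintro v ⟨hvU, hv⟩
    rcases hU hvU with h | h
    · exact absurd (hdom v ⟨hvU, h⟩) hv
    · exact h)
  have hW' : ∀ v, v ∈ W0 ∪ W1 → v ∈ U ∧ v ∉ Out1 G S := by
    intro v hv; rw [hW] at hv; exact hv
  set S' : Set V := {s | s ∈ S ∧ ¬ ∃ a ∈ A, G.Adj a s} with hS'
  obtain ⟨L, hLS, hLi, hLd⟩ := hker S' fun v hv => hv.1
  have hSdom : ∀ s ∈ S, s ∈ A ∪ L ∨ ∃ a ∈ A ∪ L, G.Adj a s := by
    intro s hs
    by_cases h : ∃ a ∈ A, G.Adj a s
    · obtain ⟨a, ha, h⟩ := h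
      exact Or.inr ⟨a, Or.inl ha, h⟩
    · rcases hLd s ⟨hs, h⟩ with h | ⟨a, ha, h⟩
      · exact Or.inl (Or.inr h)
      · exact Or.inr ⟨a, Or.inr ha, h⟩
  refine ⟨W0 ∪ (U ∩ Out1 G S), W1, A ∪ L, B, ?_, ?_, ⟨?_, ?_, ?_⟩, hQS⟩
  · ext v
    constructor
    · rintro ((h | h) | h)
      · exact (hW' v (Or.inl h)).1
      · exact h.1
      · exact (hW' v (Or.inr h)).1
    · intro hv
      by_cases h : v ∈ Out1 G S
      · exact Or.inl (Or.inr ⟨hv, h⟩)
      · have : v ∈ W0 ∪ W1 := by rw [hW]; exact ⟨hv, h⟩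
        rcases this with h | h
        · exact Or.inl (Or.inl h)
        · exact Or.inr h
  · rw [Set.disjoint_left]
    rintro v (h | h) h'
    · exact Set.disjoint_left.1 hd h h'
    · exact (hW' v (Or.inr h')).2 h.2
  · rintro v (h | h)
    · exact Or.inl (a1 h)
    · exact Or.inr ⟨hSU (hLS h).1, Or.inl (hLS h).1⟩
  · rintro x (hx | hx) y (hy | hy) hxy
    · exact a2 x hx y hy hxy
    · exact (hLS hy).2 ⟨x, hx, hxy⟩
    · exact (hW' y (Or.inl (a1 hy))).2 (Or.inr ⟨x, (hLS hx).1, hxy⟩)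
    · exact hLi x hx y hy hxy
  · rintro v (hv | ⟨hvU, hv | ⟨s, hs, hsv⟩⟩)
    · rcases a3 v hv with h | ⟨a, ha, h | ⟨w, hw, h, h'⟩⟩
      · exact Or.inl (Or.inl h)
      · exact Or.inr ⟨a, Or.inl ha, Or.inl h⟩
      · exact Or.inr ⟨a, Or.inl ha, Or.inr ⟨w, Or.inl hw, h, h'⟩⟩
    · rcases hSdom v hv with h | ⟨a, ha, h⟩
      · exact Or.inl h
      · exact Or.inr ⟨a, ha, Or.inl h⟩
    · rcases hSdom s hs with h | ⟨a, ha, h⟩
      · exact Or.inr ⟨s, h, Or.inl hsv⟩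
      · exact Or.inr ⟨a, ha, Or.inr ⟨s, Or.inr ⟨hSU hs, Or.inl hs⟩, h, hsv⟩⟩

end Pool.Agent.Lib.MP_9317e9_co.Peel
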