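import Mathlib
import Pool.Agent.Lib.MP_9317e9_co.Defs

set_option autoImplicit false

universe u

namespace Pool.Agent.Lib.MP_9317e9_co.Peel

/-- The `r`-later one-way in-neighbours of `v` in `X`: the vertices `u ∈ X` with `r v u` and with an
arc from `u` to `v` but no arc from `v` to `u`. -/
def LaterIn {V : Type u} (G : Digraph V) (r : V → V → Prop) (X : Set V) (v : V) : Set V :=
  {u | u ∈ X ∧ r v u ∧ G.Adj u v ∧ ¬ G.Adj v u}

/-- The `r`-later one-way out-neighbours of `v` in `X`. -/
def LaterOut {V : Type u} (G : Digraph V) (r : V → V → Prop) (X : Set V) (v : V) : Set V :=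
  {u | u ∈ X ∧ r v u ∧ G.Adj v u ∧ ¬ G.Adj u v}

/-- `WellIn G X`: there is a well-order `r` of the vertices such that `X` contains no infinite
sequence `f 0, f 1, ...` which is `r`-increasing, has an arc from `f (n + 1)` to `f n` for all `n`,
has no arc from `f m` to `f n` for `m < n`, and such that for infinitely many `n` the vertex `f n`
has infinitely many `r`-later one-way in-neighbours in `X`. -/
def WellIn {V : Type u} (G : Digraph V) (X : Set V) : Prop :=
  ∃ r : V → V → Prop, IsWellOrder V r ∧ ¬ ∃ f : ℕ → V, (∀ n, f n ∈ X) ∧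
    (∀ m n, m < n → r (f m) (f n) ∧ ¬ G.Adj (f m) (f n)) ∧ (∀ n, G.Adj (f (n + 1)) (f n)) ∧
    {n | (LaterIn G r X (f n)).Infinite}.Infinite

/-- `WellOut G X`: the same with all arcs reversed. -/
def WellOut {V : Type u} (G : Digraph V) (X : Set V) : Prop :=
  ∃ r : V → V → Prop, IsWellOrder V r ∧ ¬ ∃ f : ℕ → V, (∀ n, f n ∈ X) ∧
    (∀ m n, m < n → r (f m) (f n) ∧ ¬ G.Adj (f n) (f m)) ∧ (∀ n, G.Adj (f n) (f (n + 1))) ∧
    {n | (LaterOut G r X (f n)).Infinite}.Infinite

end Pool.Agent.Lib.MP_9317e9_co.Peel
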