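import Mathlib
import Pool.Agent.Lib.MP_9317e9_co.Peel.Well
import Pool.Agent.Lib.MP_9317e9_co.Peel.WellDefs

set_option autoImplicit false

universe u

namespace Pool.Agent.Lib.MP_9317e9_co.Peel

open Pool.Agent.Lib.MP_9317e9_co Pool.Agent.Lib.MP_9317e9_co.P4

variable {V : Type u}

lemma wellIn_perfect {G : Digraph V} (hG : ∀ v, ¬ G.Adj v v) {X : Set V} (hX : WellIn G X) :
    ∀ U ⊆ X, ∃ S ⊆ U, (∀ v ∈ U, v ∈ Out1 G S) ∧
      ∀ S' ⊆ S, ∃ L ⊆ S', Indep G L ∧ ∀ v ∈ S', v ∈ L ∨ ∃ a ∈ L, G.Adj a v := by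
  obtain ⟨r, hr, hX⟩ := hX
  intro U hU
  obtain ⟨S, hSU, hdom, hup⟩ := exists_greedy_wo (G := G) r U
  refine ⟨S, hSU, hdom, fun S' hS' => ?_⟩
  apply exists_kernel_mixed hG r (fun x hx y hy => hup x (hS' hx) y (hS' hy))
  rintro ⟨f, hf, hadj, hinf⟩
  apply hX
  have hstep : ∀ n, r (f n) (f (n + 1)) := by
    intro n
    rcases trichotomous_of r (f n) (f (n + 1)) with h | h | h
    · exact h
    · have := hadj n
      rw [h] at this
      exact absurd this (hG _)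
    · exact absurd (hadj n) (hup _ (hS' (hf _)) _ (hS' (hf _)) h)
  have hlt : ∀ m k, r (f m) (f (m + k + 1)) := by
    intro m k
    induction k with
    | zero => exact hstep m
    | succ k ih => exact IsTrans.trans _ _ _ ih (hstep (m + k + 1))
  have hmn : ∀ m n, m < n → r (f m) (f n) := by
    intro m n h
    obtain ⟨k, rfl⟩ := Nat.exists_eq_add_of_lt h
    exact hlt m k
  refine ⟨f, fun n => hU (hSU (hS' (hf n))), fun m n h => ⟨hmn m n h,
    hup _ (hS' (hf _)) _ (hS' (hf _)) (hmn m n h)⟩, hadj, hinf.mono ?_⟩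
  intro n hn
  refine Set.Infinite.mono ?_ (show ({u | u ∈ S' ∧ G.Adj u (f n)}).Infinite from hn)
  rintro u ⟨hu, hadj'⟩
  have hru : r (f n) u := by
    rcases trichotomous_of r (f n) u with h | h | h
    · exact h
    · rw [← h] at hadj'
      exact absurd hadj' (hG _)
    · exact absurd hadj' (hup _ (hS' hu) _ (hS' (hf _)) h)
  exact ⟨hU (hSU (hS' hu)), hru, hadj', hup _ (hS' (hf _)) _ (hS' hu) hru⟩

lemma wellOut_rv {G : Digraph V} {X : Set V} (h : WellOut G X) : WellIn (rv G) X := h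

lemma absorb_well {G : Digraph V} (hG : ∀ v, ¬ G.Adj v v) {K Y : Set V}
    (hK : WellIn G K ∨ WellOut G K) (hY : ∀ U ⊆ Y, Solv G U) : ∀ U ⊆ K ∪ Y, Solv G U := by
  rcases hK with hK | hK
  · exact absorb_kernelPerfect (wellIn_perfect hG hK) hY
  · intro U hU
    exact solv_rv (absorb_kernelPerfect (G := rv G) (wellIn_perfect (G := rv G) hG (wellOut_rv hK))
      (fun U hU => solv_rv (hY U hU)) U hU)

lemma absorb_wells {G : Digraph V} (hG : ∀ v, ¬ G.Adj v v) {Y : Set V}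
    (hY : ∀ U ⊆ Y, Solv G U) : ∀ (k : ℕ) (X : Fin k → Set V),
    (∀ i, WellIn G (X i) ∨ WellOut G (X i)) →
    ∀ U ⊆ {v | v ∈ Y ∨ ∃ i, v ∈ X i}, Solv G U := by
  intro k
  induction k with
  | zero =>
    intro X _ U hU
    apply hY
    intro v hv
    rcases hU hv with h | ⟨i, _⟩
    · exact h
    · exact i.elim0
  | succ k ih =>
    intro X hX U hU
    refine absorb_well hG (hX 0) (ih (fun i => X i.succ) fun i => hX _) U ?_
    intro v hv
    rcases hU hv with h | ⟨i, hi⟩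
    · exact Or.inr (Or.inl h)
    · rcases Fin.eq_zero_or_eq_succ i with rfl | ⟨j, rfl⟩
      · exact Or.inl hi
      · exact Or.inr (Or.inr ⟨j, hi⟩)

theorem main_well {G : Digraph V} (hG : ∀ v, ¬ G.Adj v v) {k : ℕ} (X : Fin k → Set V)
    (hX : ∀ i, WellIn G (X i) ∨ WellOut G (X i)) (hcov : ∀ v, ∃ i, v ∈ X i) :
    ∃ W : Set V, (∃ A, QK G W A) ∧ ∃ B, QS G Wᶜ B := by
  obtain ⟨W0, W1, A, B, hW, hd, hA, hB⟩ := absorb_wells hG (Y := ∅) (fun U hU => by
      have : U = ∅ := Set.eq_empty_of_subset_empty hU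
      subst this
      exact ⟨∅, ∅, ∅, ∅, by simp, by simp, ⟨subset_rfl, by simp [Indep], by simp⟩,
        ⟨subset_rfl, by simp [Indep], by simp⟩⟩) k X hX Set.univ fun v _ => Or.inr (hcov v)
  have : W1 = W0ᶜ := by
    ext v; constructor
    · intro h h'; exact Set.disjoint_left.1 hd h' h
    · intro h
      have : v ∈ W0 ∪ W1 := hW ▸ Set.mem_univ v
      exact this.resolve_left h
  subst this
  exact ⟨W0, ⟨A, hA⟩, B, hB⟩

end Pool.Agent.Lib.MP_9317e9_co.Peel
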