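import Mathlib
import Pool.Agent.Lib.MP_9317e9_co.Peel.Tower

set_option autoImplicit false

universe u

namespace Pool.Agent.Lib.MP_9317e9_co.Peel

open Pool.Agent.Lib.MP_9317e9_co Pool.Agent.Lib.MP_9317e9_co.P4

variable {V : Type u}

/-- `v` is reached from `I` by at most two arcs inside `C` -/
def Dom2 (G : Digraph V) (C I : Set V) (v : V) : Prop :=
  v ∈ I ∨ ∃ a ∈ I, G.Adj a v ∨ ∃ u ∈ C, G.Adj a u ∧ G.Adj u v

lemma dom2_mono {G : Digraph V} {C I J : Set V} {v : V} (hIJ : I ⊆ J) (h : Dom2 G C I v) :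
    Dom2 G C J v := by
  rcases h with h | ⟨a, ha, h⟩
  · exact Or.inl (hIJ h)
  · exact Or.inr ⟨a, hIJ ha, h⟩

/-- one step of the recursion -/
lemma common_step {G : Digraph V} (hG : ∀ v, ¬ G.Adj v v) {C : Set V}
    (hinf : ∀ v ∈ C, {u | u ∈ C ∧ G.Adj u v}.Infinite)
    (hcom : ∀ u ∈ C, ∀ v ∈ C, u ≠ v → ¬ (G.Adj u v ∧ G.Adj v u) →
      {w | w ∈ C ∧ G.Adj w u ∧ G.Adj w v}.Finite)
    {I : Set V} (hIC : I ⊆ C) (hIf : I.Finite) (hI : Indep G I) {v : V} (hv : v ∈ C) :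
    ∃ J, I ⊆ J ∧ J ⊆ C ∧ J.Finite ∧ Indep G J ∧ Dom2 G C J v := by
  by_cases hd : Dom2 G C I v
  · exact ⟨I, subset_rfl, hIC, hIf, hI, hd⟩
  · have hd' := hd
    unfold Dom2 at hd'
    push Not at hd'
    obtain ⟨hvI, hd'⟩ := hd'
    have hfin : (⋃ y ∈ I, {w | w ∈ C ∧ G.Adj w y ∧ G.Adj w v}).Finite := by
      apply hIf.biUnion
      intro y hy
      apply hcom y (hIC hy) v hv
      · rintro rfl; exact hvI hy
      · intro h; exact (hd' y hy).1 h.1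
    obtain ⟨c, ⟨hcC, hcv⟩, hc⟩ := ((hinf v hv).sdiff hfin).nonempty
    have hcI : ∀ y ∈ I, ¬ G.Adj c y := by
      intro y hy h
      exact hc (Set.mem_iUnion₂.2 ⟨y, hy, hcC, h, hcv⟩)
    have hIc : ∀ y ∈ I, ¬ G.Adj y c := fun y hy h => (hd' y hy).2 c hcC h hcv
    refine ⟨insert c I, Set.subset_insert _ _, Set.insert_subset hcC hIC, hIf.insert c, ?_, ?_⟩
    · rintro a (rfl | ha) b (rfl | hb) hab
      · exact hG _ hab
      · exact hcI b hb hab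
      · exact hIc a ha hab
      · exact hI a ha b hb hab
    · exact Or.inr ⟨c, Set.mem_insert _ _, Or.inl hcv⟩

/-- the recursion of length `ω` -/
lemma exists_qk_countable {G : Digraph V} (hG : ∀ v, ¬ G.Adj v v) {C : Set V}
    (hC : C.Countable) (hinf : ∀ v ∈ C, {u | u ∈ C ∧ G.Adj u v}.Infinite)
    (hcom : ∀ u ∈ C, ∀ v ∈ C, u ≠ v → ¬ (G.Adj u v ∧ G.Adj v u) →
      {w | w ∈ C ∧ G.Adj w u ∧ G.Adj w v}.Finite) :
    ∃ A, QK G C A := by
  classical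
  rcases C.eq_empty_or_nonempty with rfl | hne
  · exact ⟨∅, by simp, by simp [Indep], by simp⟩
  obtain ⟨e, he⟩ := hC.exists_eq_range hne
  have heC : ∀ n, e n ∈ C := fun n => he ▸ Set.mem_range_self n
  let P : Type u := {I : Set V // I ⊆ C ∧ I.Finite ∧ Indep G I}
  have hstep : ∀ (n : ℕ) (I : P), ∃ J : P, I.1 ⊆ J.1 ∧ Dom2 G C J.1 (e n) := by
    intro n I
    obtain ⟨J, h1, h2, h3, h4, h5⟩ := common_step hG hinf hcom I.2.1 I.2.2.1 I.2.2.2 (heC n)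
    exact ⟨⟨J, h2, h3, h4⟩, h1, h5⟩
  choose f hf1 hf2 using hstep
  let s : ℕ → P := fun n => Nat.rec ⟨∅, by simp, by simp, by simp [Indep]⟩ (fun n I => f n I) n
  have hs : ∀ n, s (n + 1) = f n (s n) := fun n => rfl
  have hmono : Monotone (fun n => (s n).1) := monotone_nat_of_le_succ fun n => by
    rw [hs]; exact hf1 n (s n)
  refine ⟨⋃ n, (s n).1, ?_, ?_, ?_⟩
  · exact Set.iUnion_subset fun n => (s n).2.1
  · intro a ha b hb hab
    obtain ⟨m, hm⟩ := Set.mem_iUnion.1 ha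
    obtain ⟨n, hn⟩ := Set.mem_iUnion.1 hb
    exact (s (max m n)).2.2.2 a (hmono (le_max_left m n) hm) b (hmono (le_max_right m n) hn) hab
  · intro v hv
    rw [he] at hv
    obtain ⟨n, rfl⟩ := hv
    have : Dom2 G C (s (n + 1)).1 (e n) := by rw [hs]; exact hf2 n (s n)
    exact dom2_mono (Set.subset_iUnion (fun n => (s n).1) (n + 1)) this

/-- a quasi-kernel of a set closed under in-neighbours gives a position -/
lemma pos_of_inclosed {G : Digraph V} {Z C A : Set V} (hCZ : C ⊆ Z)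
    (hcl : ∀ v ∈ C, ∀ u ∈ Z, G.Adj u v → u ∈ C) (hA : QK G C A) :
    Pos G Z A {v | v ∈ C ∧ (v ∈ A ∨ ∃ a ∈ A, G.Adj a v)} ∅ ∅ := by
  obtain ⟨a1, a2, a3⟩ := hA
  set S : Set V := {v | v ∈ C ∧ (v ∈ A ∨ ∃ a ∈ A, G.Adj a v)} with hS
  have hsol : ∀ a ∈ A, ∀ x, (x ∈ A ∨ x ∈ Rest G Z S ∅) → ¬ G.Adj x a := by
    rintro a ha x (hx | ⟨hxZ, h1, h2, _⟩) hxa
    · exact a2 x hx a ha hxa
    · have hxC : x ∈ C := hcl a (a1 ha) x hxZ hxa
      rcases a3 x hxC with h | ⟨b, hb, h | ⟨u, hu, hbu, hux⟩⟩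
      · exact h1 ⟨hxC, Or.inl h⟩
      · exact h2 b ⟨a1 hb, Or.inl hb⟩ h
      · exact h2 u ⟨hu, Or.inr ⟨b, hb, hbu⟩⟩ hux
  refine ⟨fun a ha => ⟨a1 ha, Or.inl ha⟩, fun v hv => hCZ hv.1, subset_rfl,
    Set.empty_subset _, Set.disjoint_empty _, finKer_of_indep a2, ?_, ?_,
    finSink_of_indep (by simp [Indep]), by simp, by simp⟩
  · intro a ha
    convert Set.finite_empty (α := V)
    apply Set.eq_empty_of_subset_empty
    rintro x ⟨hx, hxa⟩
    exact hsol a ha x hx hxa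
  · rintro s ⟨_, h | ⟨a, ha, has⟩⟩ hsA
    · exact absurd h hsA
    · exact ⟨a, ha, has, hsol a ha⟩

/-- closure of a point under in-neighbours, countable if all in-degrees are countable -/
lemma exists_inclosure {G : Digraph V} {Z : Set V}
    (hcnt : ∀ v ∈ Z, {u | u ∈ Z ∧ G.Adj u v}.Countable) {z : V} (hz : z ∈ Z) :
    ∃ C ⊆ Z, z ∈ C ∧ C.Countable ∧ ∀ v ∈ C, ∀ u ∈ Z, G.Adj u v → u ∈ C := by
  let c : ℕ → Set V := fun n => Nat.rec {z}
    (fun _ D => {u | ∃ v ∈ D, v ∈ Z ∧ u ∈ Z ∧ G.Adj u v}) n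
  have hc : ∀ n, c (n + 1) = {u | ∃ v ∈ c n, v ∈ Z ∧ u ∈ Z ∧ G.Adj u v} := fun n => rfl
  have hcZ : ∀ n, c n ⊆ Z := by
    intro n
    cases n with
    | zero => intro v hv; rw [Set.mem_singleton_iff.1 hv]; exact hz
    | succ n => rintro v ⟨_, _, _, h, _⟩; exact h
  refine ⟨⋃ n, c n, Set.iUnion_subset hcZ, Set.mem_iUnion.2 ⟨0, rfl⟩, ?_, ?_⟩
  · apply Set.countable_iUnion
    intro n
    induction n with
    | zero => exact Set.countable_singleton z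
    | succ n ih =>
      rw [hc]
      refine (ih.biUnion (t := fun v _ => {u | u ∈ Z ∧ G.Adj u v}) ?_).mono ?_
      · intro v hv
        exact hcnt v (hcZ n hv)
      · rintro u ⟨v, hv, _, huZ, huv⟩
        exact Set.mem_iUnion₂.2 ⟨v, hv, huZ, huv⟩
  · intro v hv u hu huv
    obtain ⟨n, hn⟩ := Set.mem_iUnion.1 hv
    exact Set.mem_iUnion.2 ⟨n + 1, v, hn, hcZ n hn, hu, huv⟩

/-- hereditary quasi-kernels -/
theorem qk_of_common {G : Digraph V} (hG : ∀ v, ¬ G.Adj v v) {Y : Set V}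
    (hcnt : ∀ v ∈ Y, {u | u ∈ Y ∧ G.Adj u v}.Countable)
    (hcom : ∀ u ∈ Y, ∀ v ∈ Y, u ≠ v → ¬ (G.Adj u v ∧ G.Adj v u) →
      {w | w ∈ Y ∧ G.Adj w u ∧ G.Adj w v}.Finite) :
    ∀ U ⊆ Y, ∃ A, QK G U A := by
  apply qk_of_pos
  intro Z hZ hne
  by_cases hfin : ∃ v ∈ Z, {u | u ∈ Z ∧ G.Adj u v}.Finite
  · obtain ⟨v, hv, hf⟩ := hfin
    have hi : Indep G {v} := by
      rintro a rfl b rfl; exact hG _
    refine ⟨{v}, {v}, ⟨subset_rfl, by simpa using hv, subset_rfl, Set.empty_subset _,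
      Set.disjoint_empty _, finKer_of_indep hi, ?_, ?_, finSink_of_indep (by simp [Indep]),
      by simp, by simp⟩, Set.singleton_nonempty v⟩
    · rintro a rfl
      refine hf.subset ?_
      rintro x ⟨hx | hx, hxa⟩
      · rw [Set.mem_singleton_iff.1 hx] at hxa
        exact absurd hxa (hG _)
      · exact ⟨hx.1, hxa⟩
    · intro s hs hs'
      exact absurd hs hs'
  · push Not at hfin
    obtain ⟨z, hz⟩ := hne
    have hcntZ : ∀ v ∈ Z, {u | u ∈ Z ∧ G.Adj u v}.Countable := by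
      intro v hv
      apply (hcnt v (hZ hv)).mono
      intro u hu
      exact ⟨hZ hu.1, hu.2⟩
    obtain ⟨C, hCZ, hzC, hCc, hcl⟩ := exists_inclosure hcntZ hz
    obtain ⟨A, hA⟩ := exists_qk_countable hG hCc (fun v hv => by
        have h1 : {u | u ∈ Z ∧ G.Adj u v} ⊆ {u | u ∈ C ∧ G.Adj u v} :=
          fun u hu => ⟨hcl v hv u hu.1 hu.2, hu.2⟩
        have h2 : ({u | u ∈ Z ∧ G.Adj u v}).Infinite := hfin v (hCZ hv)
        exact h2.mono h1)
      (fun u hu v hv huv hadj => (hcom u (hZ (hCZ hu)) v (hZ (hCZ hv)) huv hadj).subset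
        fun w hw => ⟨hZ (hCZ hw.1), hw.2⟩)
    refine ⟨A, _, pos_of_inclosed hCZ hcl hA, ?_⟩
    rcases hA.2.2 z hzC with h | ⟨a, ha, _⟩
    · exact ⟨z, h⟩
    · exact ⟨a, ha⟩

end Pool.Agent.Lib.MP_9317e9_co.Peel
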