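import Mathlib
import Pool.Agent.Lib.MP_9317e9_co.Peel.Common
import Pool.Agent.Lib.MP_9317e9_co.Peel.WellMain

set_option autoImplicit false

universe u

namespace Pool.Agent.Lib.MP_9317e9_co.Peel

open Pool.Agent.Lib.MP_9317e9_co Pool.Agent.Lib.MP_9317e9_co.P4

variable {V : Type u}

/-- the solution for the union of `Y₀`, `Y₁` and finitely many pieces -/
theorem main_common {G : Digraph V} (hG : ∀ v, ¬ G.Adj v v) {Y₀ Y₁ : Set V}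
    (hcnt₀ : ∀ v ∈ Y₀, {u | u ∈ Y₀ ∧ G.Adj u v}.Countable)
    (hcom₀ : ∀ u ∈ Y₀, ∀ v ∈ Y₀, u ≠ v → ¬ (G.Adj u v ∧ G.Adj v u) →
      {w | w ∈ Y₀ ∧ G.Adj w u ∧ G.Adj w v}.Finite)
    (hcnt₁ : ∀ v ∈ Y₁, {u | u ∈ Y₁ ∧ G.Adj v u}.Countable)
    (hcom₁ : ∀ u ∈ Y₁, ∀ v ∈ Y₁, u ≠ v → ¬ (G.Adj u v ∧ G.Adj v u) →
      {w | w ∈ Y₁ ∧ G.Adj u w ∧ G.Adj v w}.Finite)
    {k : ℕ} (X : Fin k → Set V) (hX : ∀ i, WellIn G (X i) ∨ WellOut G (X i))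
    (hcov : ∀ v, (v ∈ Y₀ ∨ v ∈ Y₁) ∨ ∃ i, v ∈ X i) :
    ∃ W : Set V, (∃ A, QK G W A) ∧ ∃ B, QS G Wᶜ B := by
  have h0 := qk_of_common hG hcnt₀ hcom₀
  have h1 : ∀ U ⊆ Y₁, ∃ B, QS G U B := by
    intro U hU
    obtain ⟨B, hB⟩ := qk_of_common (G := rev G) hG hcnt₁
      (fun u hu v hv huv h => hcom₁ u hu v hv huv fun h' => h ⟨h'.2, h'.1⟩) U hU
    exact ⟨B, qs_of_qk_rev hB⟩
  have hY : ∀ U ⊆ Y₀ ∪ Y₁, Solv G U := solv_of_hereditary hG (Y := ∅) (R0 := Y₀) (R1 := Y₁)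
    (fun v hv => Or.inr hv) h0 h1 (fun y hy => absurd (hy 0).1 (Set.notMem_empty _))
  obtain ⟨W0, W1, A, B, hW, hd, hA, hB⟩ := absorb_wells hG hY k X hX
    Set.univ fun v _ => hcov v
  have : W1 = W0ᶜ := by
    ext v; constructor
    · intro h h'; exact Set.disjoint_left.1 hd h' h
    · intro h
      have : v ∈ W0 ∪ W1 := hW ▸ Set.mem_univ v
      exact this.resolve_left h
  subst this
  exact ⟨W0, ⟨A, hA⟩, B, hB⟩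

end Pool.Agent.Lib.MP_9317e9_co.Peel
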