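import Mathlib
import Pool.Agent.Lib.MP_9317e9_co.P4.Pieces
import Pool.Agent.Lib.MP_9317e9_co.Peel.WellMain

set_option autoImplicit false

universe u

namespace Pool.Agent.Lib.MP_9317e9_co.Peel

open Pool.Agent.Lib.MP_9317e9_co Pool.Agent.Lib.MP_9317e9_co.P4

variable {V : Type u}

theorem main_path {G : Digraph V} (hG : ∀ v, ¬ G.Adj v v) {Y : Set V} (hP : PathCond G Y)
    {k : ℕ} (X : Fin k → Set V) (hX : ∀ i, WellIn G (X i) ∨ WellOut G (X i))
    (hcov : ∀ v, v ∈ Y ∨ ∃ i, v ∈ X i) :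
    ∃ W : Set V, (∃ A, QK G W A) ∧ ∃ B, QS G Wᶜ B := by
  obtain ⟨W0, W1, A, B, hW, hd, hA, hB⟩ := absorb_wells hG (solv_of_pathCond hG hP) k X hX
    Set.univ fun v _ => hcov v
  have : W1 = W0ᶜ := by
    ext v; constructor
    · intro h h'; exact Set.disjoint_left.1 hd h' h
    · intro h
      have : v ∈ W0 ∪ W1 := hW ▸ Set.mem_univ v
      exact this.resolve_left h
  subst this
  exact ⟨W0, ⟨A, hA⟩, B, hB⟩

end Pool.Agent.Lib.MP_9317e9_co.Peel
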